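import Mathlib

/-!
# The prime divisors of the iterates of `x ^ 2 - 1`: the primes modulo which `1` is not a value of the `k`-th iterate
-/

set_option autoImplicit false

namespace Pool.Agent.Results.MP_06afd2_nt.PrimesInertAtLevelK

/-- The sequence `a 0 = n`, `a (k + 1) = (a k) ^ 2 - 1` in a ring. -/
def a {R : Type} [CommRing R] (n : R) : ℕ → R
  | 0 => n
  | k + 1 => (a n k) ^ 2 - 1

/-- The set of the primes which divide some term of the sequence with the first term `n`. -/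
def P (n : ℕ) : Set ℕ := {p | p.Prime ∧ ∃ k, (p : ℤ) ∣ a (n : ℤ) k}

/-- The number `1` is not a value of the `k`-th iterate of `x ^ 2 - 1` modulo `p`. -/
def Inert (p k : ℕ) : Prop := ∀ z : ZMod p, a z k ≠ 1

lemma a_cast (p : ℕ) (n : ℤ) (k : ℕ) : ((a n k : ℤ) : ZMod p) = a (n : ZMod p) k := by
  induction k with
  | zero => rfl
  | succ k ih =>
    show (((a n k) ^ 2 - 1 : ℤ) : ZMod p) = (a (n : ZMod p) k) ^ 2 - 1
    rw [← ih]
    push_cast
    rfl

lemma a_add {R : Type} [CommRing R] (n : R) (i j : ℕ) : a n (i + j) = a (a n i) j := by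
  induction j with
  | zero => rfl
  | succ j ih =>
    show (a n (i + j)) ^ 2 - 1 = (a (a n i) j) ^ 2 - 1
    rw [ih]

/-- the main lemma -/
lemma key (p : ℕ) (hp : p.Prime) (k : ℕ) (hk : 1 ≤ k) (hI : Inert p k) (z : ZMod p) (i : ℕ) (h : a z i = 0) : ∃ j, j ≤ k ∧ a z j = 0 := by
  have : Fact p.Prime := ⟨hp⟩
  induction i using Nat.strong_induction_on with
  | _ i ih =>
    by_cases hik : i ≤ k
    · exact ⟨i, hik, h⟩
    · obtain ⟨l, rfl⟩ : ∃ l, i = l + 2 := ⟨i - 2, by omega⟩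
      have h1 : (a z (l + 1) - 1) * (a z (l + 1) + 1) = 0 := by
        have : a z (l + 2) = (a z (l + 1)) ^ 2 - 1 := rfl
        rw [this] at h
        rw [← h]
        ring
      rcases mul_eq_zero.1 h1 with h2 | h2
      · exfalso
        have h3 : a z (l + 1) = 1 := sub_eq_zero.1 h2
        obtain ⟨q, hq⟩ : ∃ q, l + 1 = q + k := ⟨l + 1 - k, by omega⟩
        rw [hq, a_add] at h3
        exact hI _ h3
      · have h3 : a z l ^ 2 = 0 := by
          have : a z (l + 1) = (a z l) ^ 2 - 1 := rfl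
          rw [this] at h2
          rw [← h2]
          ring
        exact ih l (by omega) (pow_eq_zero_iff two_ne_zero |>.1 h3)

lemma mem_P (p n : ℕ) (hp : p.Prime) : p ∈ P n ↔ ∃ k, a (n : ZMod p) k = 0 := by
  unfold P
  constructor
  · rintro ⟨_, k, hk⟩
    refine ⟨k, ?_⟩
    have h1 := (ZMod.intCast_zmod_eq_zero_iff_dvd (a (n : ℤ) k) p).2 hk
    rw [a_cast] at h1
    simpa using h1
  · rintro ⟨k, hk⟩
    refine ⟨hp, k, ?_⟩
    rw [← ZMod.intCast_zmod_eq_zero_iff_dvd, a_cast]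
    simpa using hk

lemma inert_one (p : ℕ) (hp : p.Prime) (h8 : p % 8 = 3 ∨ p % 8 = 5) : Inert p 1 := by
  have : Fact p.Prime := ⟨hp⟩
  have h2 : p ≠ 2 := by
    rintro rfl
    omega
  intro z hz
  have h1 : z ^ 2 - 1 = 1 := hz
  have h3 : IsSquare (2 : ZMod p) := ⟨z, by linear_combination -h1⟩
  have h4 := (ZMod.exists_sq_eq_two_iff h2).1 h3
  omega

/-- **The prime divisors of the iterates of `x ^ 2 - 1`.** Let `P n` be the set of the primes which divide some term of the sequence `a 0 = n`, `a (k + 1) = (a k) ^ 2 - 1`.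

(1) If `k ≥ 1` and `p` is a prime modulo which `1` is not a value of the `k`-th iterate of `x ^ 2 - 1`, then `p` belongs to `P n` if and only if it divides one of `a 0, ..., a k`.

(2) If `p` is a prime congruent to `3` or `5` modulo `8`, then `p` belongs to `P n` if and only if it divides `n (n ^ 2 - 1)`.

(3) If `P m = P n`, then `m (m ^ 2 - 1)` and `n (n ^ 2 - 1)` have the same prime divisors congruent to `3` or `5` modulo `8`. In particular
`P m ≠ P n`, if a prime congruent to `3` or `5` modulo `8` and larger than `m + 1` divides `n (n ^ 2 - 1)` (`m ≥ 2`).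

(4) The map `P` is injective on the set of the primes congruent to `3` or `5` modulo `8`. -/
theorem result :
    (∀ p k n : ℕ, p.Prime → 1 ≤ k → Inert p k → (p ∈ P n ↔ ∃ j, j ≤ k ∧ (p : ℤ) ∣ a (n : ℤ) j)) ∧
    (∀ p n : ℕ, p.Prime → p % 8 = 3 ∨ p % 8 = 5 → (p ∈ P n ↔ (p : ℤ) ∣ n * ((n : ℤ) ^ 2 - 1))) ∧
    (∀ m n : ℕ, P m = P n → ∀ p : ℕ, p.Prime → p % 8 = 3 ∨ p % 8 = 5 → ((p : ℤ) ∣ m * ((m : ℤ) ^ 2 - 1) ↔ (p : ℤ) ∣ n * ((n : ℤ) ^ 2 - 1))) ∧
    (∀ m n p : ℕ, 2 ≤ m → p.Prime → p % 8 = 3 ∨ p % 8 = 5 → m + 1 < p → (p : ℤ) ∣ n * ((n : ℤ) ^ 2 - 1) → P m ≠ P n) ∧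
    (∀ p q : ℕ, p.Prime → q.Prime → p % 8 = 3 ∨ p % 8 = 5 → q % 8 = 3 ∨ q % 8 = 5 → P p = P q → p = q) := by
  have r1 : ∀ p k n : ℕ, p.Prime → 1 ≤ k → Inert p k → (p ∈ P n ↔ ∃ j, j ≤ k ∧ (p : ℤ) ∣ a (n : ℤ) j) := by
    intro p k n hp hk hI
    constructor
    · intro h
      obtain ⟨i, hi⟩ := (mem_P p n hp).1 h
      obtain ⟨j, hj, hj2⟩ := key p hp k hk hI _ i hi
      refine ⟨j, hj, ?_⟩
      rw [← ZMod.intCast_zmod_eq_zero_iff_dvd, a_cast]
      simpa using hj2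
    · rintro ⟨j, _, hj⟩
      exact ⟨hp, j, hj⟩
  have r2 : ∀ p n : ℕ, p.Prime → p % 8 = 3 ∨ p % 8 = 5 → (p ∈ P n ↔ (p : ℤ) ∣ n * ((n : ℤ) ^ 2 - 1)) := by
    intro p n hp h8
    have hpi : Prime (p : ℤ) := Nat.prime_iff_prime_int.1 hp
    rw [r1 p 1 n hp le_rfl (inert_one p hp h8)]
    constructor
    · rintro ⟨j, hj, hd⟩
      interval_cases j
      · exact Dvd.dvd.mul_right hd _
      · exact Dvd.dvd.mul_left hd _
    · intro hd
      rcases hpi.dvd_or_dvd hd with h1 | h1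
      · exact ⟨0, by omega, h1⟩
      · exact ⟨1, le_rfl, h1⟩
  have r4 : ∀ m n p : ℕ, 2 ≤ m → p.Prime → p % 8 = 3 ∨ p % 8 = 5 → m + 1 < p → (p : ℤ) ∣ n * ((n : ℤ) ^ 2 - 1) → P m ≠ P n := by
    intro m n p hm hp h8 hlt hd heq
    have hpi : Prime (p : ℤ) := Nat.prime_iff_prime_int.1 hp
    have h1 : (p : ℤ) ∣ m * ((m : ℤ) ^ 2 - 1) := by
      rw [← r2 p m hp h8, heq, r2 p n hp h8]
      exact hd
    rcases hpi.dvd_or_dvd h1 with h2 | h2
    · have h3 := Int.le_of_dvd (by omega) h2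
      omega
    · have h3 : (p : ℤ) ∣ ((m : ℤ) - 1) * ((m : ℤ) + 1) := by
        have e : ((m : ℤ) - 1) * ((m : ℤ) + 1) = (m : ℤ) ^ 2 - 1 := by ring
        rwa [e]
      rcases hpi.dvd_or_dvd h3 with h4 | h4
      · have h5 := Int.le_of_dvd (by omega) h4
        omega
      · have h5 := Int.le_of_dvd (by omega) h4
        omega
  refine ⟨r1, r2, ?_, r4, ?_⟩
  · intro m n h p hp h8
    rw [← r2 p m hp h8, ← r2 p n hp h8, h]
  · intro p q hp hq h8 h8' h
    rcases lt_trichotomy p q with h1 | h1 | h1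
    · exact absurd h (r4 p q q hp.two_le hq h8' (by omega) (Dvd.intro _ rfl))
    · exact h1
    · exact absurd h.symm (r4 q p p hq.two_le hp h8 (by omega) (Dvd.intro _ rfl))

end Pool.Agent.Results.MP_06afd2_nt.PrimesInertAtLevelK
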